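import Pool.Agent.Helper96.AG.Bas
import Pool.Agent.Helper66.AF.BA

/-!
# The ballot estimate from level `j` on: tools
-/

set_option autoImplicit false

namespace Pool.Agent.Helper66.AG

open Finset Pool.Agent.Helper5.RM Pool.Agent.Helper96.AF Pool.Agent.Helper96.AG Pool.Agent.Helper66.AF

lemma young {G μ : ℝ} (hμ : 0 < μ) : G ≤ G ^ 4 / (4 * μ ^ 3) + 3 / 4 * μ := by
  have h1 : G = μ * (G / μ) := by field_simp
  set r := G / μ with hr
  have h2 : G ^ 4 / (4 * μ ^ 3) = μ * (r ^ 4 / 4) := by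
    rw [hr, div_pow]
    field_simp
  rw [h2]
  conv_lhs => rw [h1]
  have h3 : r ≤ r ^ 4 / 4 + 3 / 4 := by
    nlinarith [mul_nonneg (sq_nonneg (r - 1)) (show 0 ≤ (r + 1) ^ 2 + 2 by positivity)]
  nlinarith

open Classical in
lemma aw_young {S : Finset ℕ} {θ : ℕ → ℝ} (hθ : ∀ p ∈ S, |θ p| ≤ 1) {E : Finset ℕ → Prop} {G : Finset ℕ → ℝ}
    {x m μ : ℝ} (hμ : 0 < μ) (hx : aw S θ (fun T => if E T then 1 else 0) ≤ x) (hm : aw S θ (fun T => G T ^ 4) ≤ m) :
    aw S θ (fun T => if E T then G T else 0) ≤ m / (4 * μ ^ 3) + 3 / 4 * μ * x := by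
  have h1 : aw S θ (fun T => if E T then G T else 0) ≤
      aw S θ (fun T => 1 / (4 * μ ^ 3) * G T ^ 4 + 3 / 4 * μ * (if E T then 1 else 0)) := by
    refine aw_mono hθ fun T _ => ?_
    have h2 := young (G := G T) hμ
    split_ifs
    · rw [one_div_mul_eq_div, mul_one]
      exact h2
    · have : 0 ≤ G T ^ 4 := by positivity
      rw [mul_zero, add_zero]
      positivity
  refine h1.trans ?_
  rw [aw_add, aw_mul_left, aw_mul_left]
  have h3 : 1 / (4 * μ ^ 3) * aw S θ (fun T => G T ^ 4) ≤ 1 / (4 * μ ^ 3) * m := mul_le_mul_of_nonneg_left hm (by positivity)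
  have h4 := mul_le_mul_of_nonneg_left hx (show 0 ≤ 3 / 4 * μ by positivity)
  rw [one_div_mul_eq_div (4 * μ ^ 3) m] at h3
  linarith

open Classical in
/-- Hoelder's inequality in the form needed -/
lemma aw_holder {S : Finset ℕ} {θ : ℕ → ℝ} (hθ : ∀ p ∈ S, |θ p| ≤ 1) {E : Finset ℕ → Prop} {G : Finset ℕ → ℝ}
    {C X m D : ℝ} (hX : 0 < X) (hD : 0 < D) (hx : aw S θ (fun T => if E T then 1 else 0) ≤ C * X)
    (hm : aw S θ (fun T => G T ^ 4) ≤ m * D ^ 4) :
    aw S θ (fun T => if E T then G T else 0) ≤ (m / 4 + 3 / 4 * C) * D * X ^ (3 / 4 : ℝ) := by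
  have hz : 0 < X ^ (-(1 / 4) : ℝ) := Real.rpow_pos_of_pos hX _
  have h1 := aw_young hθ (μ := D * X ^ (-(1 / 4) : ℝ)) (by positivity) hx hm
  refine h1.trans (le_of_eq ?_)
  have e1 : X ^ (-(1 / 4) : ℝ) * X = X ^ (3 / 4 : ℝ) := by
    nth_rewrite 2 [← Real.rpow_one X]
    rw [← Real.rpow_add hX]
    norm_num
  have e2 : (X ^ (-(1 / 4) : ℝ)) ^ 3 * X ^ (3 / 4 : ℝ) = 1 := by
    rw [← Real.rpow_natCast, ← Real.rpow_mul hX.le, ← Real.rpow_add hX]
    norm_num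
  have e3 : m * D ^ 4 / (4 * (D * X ^ (-(1 / 4) : ℝ)) ^ 3) = m / 4 * D * X ^ (3 / 4 : ℝ) := by
    rw [div_eq_iff (by positivity)]
    calc m * D ^ 4 = m * D ^ 4 * 1 := by ring
      _ = m * D ^ 4 * ((X ^ (-(1 / 4) : ℝ)) ^ 3 * X ^ (3 / 4 : ℝ)) := by rw [e2]
      _ = _ := by ring
  rw [e3]
  calc m / 4 * D * X ^ (3 / 4 : ℝ) + 3 / 4 * (D * X ^ (-(1 / 4) : ℝ)) * (C * X) =
      m / 4 * D * X ^ (3 / 4 : ℝ) + 3 / 4 * D * C * (X ^ (-(1 / 4) : ℝ) * X) := by ring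
    _ = _ := by rw [e1]; ring

/-- fourth moment of the walk -/
lemma aw_four {S : Finset ℕ} {θ : ℕ → ℝ} (hθ : ∀ p ∈ S, |θ p| ≤ 1) (c : ℕ → ℝ) {s : ℝ} (hs : 0 < s)
    (h : ∑ p ∈ S, c p ^ 2 ≤ s ^ 2) :
    aw S θ (fun T => (∑ p ∈ S, c p * (sg T p - θ p)) ^ 4) ≤ 2640 * s ^ 4 := by
  have hpt : ∀ T ⊆ S, (∑ p ∈ S, c p * (sg T p - θ p)) ^ 4 ≤
      (24 * s ^ 4) * (Real.exp (∑ p ∈ S, (c p / s) * (sg T p - θ p)) + Real.exp (∑ p ∈ S, (-(c p / s)) * (sg T p - θ p))) := by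
    intro T _
    set z := ∑ p ∈ S, c p * (sg T p - θ p) with hz
    have e1 : ∑ p ∈ S, (c p / s) * (sg T p - θ p) = z / s := by
      rw [hz, Finset.sum_div]
      exact Finset.sum_congr rfl fun p _ => by ring
    have e2 : ∑ p ∈ S, (-(c p / s)) * (sg T p - θ p) = -(z / s) := by
      rw [← e1, ← Finset.sum_neg_distrib]
      exact Finset.sum_congr rfl fun p _ => by ring
    rw [e1, e2]
    have e3 := Real.pow_div_factorial_le_exp (|z / s|) (abs_nonneg _) 4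
    have e4 : Real.exp |z / s| ≤ Real.exp (z / s) + Real.exp (-(z / s)) := by
      rcases abs_cases (z / s) with h | h
      · rw [h.1]; linarith [Real.exp_pos (-(z / s))]
      · rw [h.1]; linarith [Real.exp_pos (z / s)]
    have e5 : |z / s| ^ 4 = z ^ 4 / s ^ 4 := by
      rw [show (4 : ℕ) = 2 * 2 by norm_num, pow_mul, sq_abs, div_pow, div_pow, pow_mul, pow_mul]
    rw [e5] at e3
    have e6 : (Nat.factorial 4 : ℝ) = 24 := by norm_num [Nat.factorial]
    rw [e6] at e3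
    have e7 : z ^ 4 / s ^ 4 ≤ 24 * (Real.exp (z / s) + Real.exp (-(z / s))) := by
      have := e3.trans e4
      linarith
    rw [div_le_iff₀ (by positivity)] at e7
    linarith
  refine (aw_mono hθ hpt).trans ?_
  rw [aw_mul_left, aw_add]
  have e1 := aw_exp_le hθ (fun p => c p / s)
  have e2 := aw_exp_le hθ (fun p => -(c p / s))
  have e3 : ∑ p ∈ S, (c p / s) ^ 2 ≤ 1 := by
    have : ∀ p ∈ S, (c p / s) ^ 2 = c p ^ 2 / s ^ 2 := fun p _ => by rw [div_pow]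
    rw [Finset.sum_congr rfl this, ← Finset.sum_div, div_le_one (by positivity)]
    exact h
  have e4 : ∑ p ∈ S, (-(c p / s)) ^ 2 ≤ 1 := by
    refine le_trans (le_of_eq ?_) e3
    exact Finset.sum_congr rfl fun p _ => by ring
  have e5 : Real.exp (4 * 1) ≤ 55 := by
    rw [Real.exp_mul]
    have h := Real.exp_one_lt_d9
    have h0 := Real.exp_pos 1
    have e6 : Real.exp 4 = Real.exp 1 ^ 4 := by
      rw [← Real.exp_nat_mul]
      norm_num
    rw [Real.rpow_one, e6]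
    calc Real.exp 1 ^ 4 ≤ (2.7182818286 : ℝ) ^ 4 := pow_le_pow_left₀ h0.le h.le 4
      _ ≤ 55 := by norm_num
  have e8 := e1.trans (Real.exp_le_exp.2 (mul_le_mul_of_nonneg_left e3 (by norm_num)))
  have e9 := e2.trans (Real.exp_le_exp.2 (mul_le_mul_of_nonneg_left e4 (by norm_num)))
  have e7 : aw S θ (fun T => Real.exp (∑ p ∈ S, c p / s * (sg T p - θ p))) +
      aw S θ (fun T => Real.exp (∑ p ∈ S, -(c p / s) * (sg T p - θ p))) ≤ 110 := by
    refine (add_le_add (e8.trans e5) (e9.trans e5)).trans ?_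
    norm_num
  calc 24 * s ^ 4 * _ ≤ 24 * s ^ 4 * 110 := mul_le_mul_of_nonneg_left e7 (by positivity)
    _ = _ := by ring

/-- restriction of a centred sum to a subset -/
lemma sum_extend {S S' : Finset ℕ} (h : S' ⊆ S) (c : ℕ → ℝ) (T : Finset ℕ) (θ : ℕ → ℝ) :
    ∑ p ∈ S', c p * (sg T p - θ p) = ∑ p ∈ S, (if p ∈ S' then c p else 0) * (sg T p - θ p) := by
  rw [← Finset.sum_subset h]
  · exact Finset.sum_congr rfl fun p hp => by rw [if_pos hp]
  · intro p _ hp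
    rw [if_neg hp, zero_mul]

lemma sum_sq_extend {S S' : Finset ℕ} (h : S' ⊆ S) (c : ℕ → ℝ) :
    ∑ p ∈ S, (if p ∈ S' then c p else 0) ^ 2 = ∑ p ∈ S', c p ^ 2 := by
  rw [← Finset.sum_subset h]
  · exact Finset.sum_congr rfl fun p hp => by rw [if_pos hp]
  · intro p _ hp
    rw [if_neg hp]
    norm_num

lemma th_zero_pos {q : ℕ} (hq : 2 ≤ q) : 0 < th q 0 := by
  have : (2 : ℝ) ≤ q := by exact_mod_cast hq
  have h1 : 0 < Real.sqrt q := Real.sqrt_pos.2 (by linarith)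
  unfold th
  rw [zero_mul, Real.cos_zero]
  positivity

lemma th_pos_small {j q : ℕ} (hq : q ∈ PP (Y j)) {t : ℝ} (ht : |t| ≤ 1 / 2 ^ j) : 0 < th q t := by
  have h2 := two_le_of_mem_PP hq
  have hq0 : (2 : ℝ) ≤ q := by exact_mod_cast h2
  have hlq : 0 ≤ Real.log q := Real.log_nonneg (by linarith)
  have h1 : 0 < Real.sqrt q := Real.sqrt_pos.2 (by linarith)
  have h3 : Real.log q ≤ 2 ^ j * Real.log 2 := by
    rw [← log_Y]
    refine Real.log_le_log (by linarith) ?_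
    exact_mod_cast (mem_PP.1 hq).2
  have h4 : |t * Real.log q| ≤ Real.log 2 := by
    rw [abs_mul, abs_of_nonneg hlq]
    calc |t| * Real.log q ≤ 1 / 2 ^ j * (2 ^ j * Real.log 2) := mul_le_mul ht h3 hlq (by positivity)
      _ = Real.log 2 := by field_simp
  have h5 := Real.log_two_lt_d9
  have h6 := Real.pi_gt_three
  have h7 : 0 < Real.cos (t * Real.log q) := by
    apply Real.cos_pos_of_mem_Ioo
    obtain ⟨a1, a2⟩ := abs_le.1 h4
    constructor <;> linarith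
  unfold th
  positivity

/-- the product at `0` decreases when a prime is inserted -/
lemma dd_zero_insert {j q : ℕ} {T : Finset ℕ} (hT : q ∉ T) (hq : q ∈ PP (Y j)) :
    dd (PP (Y j)) (insert q T) 0 ≤ dd (PP (Y j)) T 0 := by
  unfold dd
  rw [← Finset.mul_prod_erase _ _ hq, ← Finset.mul_prod_erase _ _ hq]
  have h1 : ∏ p ∈ (PP (Y j)).erase q, (1 + sg (insert q T) p * th p 0) = ∏ p ∈ (PP (Y j)).erase q, (1 + sg T p * th p 0) := by
    refine Finset.prod_congr rfl fun p hp => ?_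
    rw [sg_insert_of_ne (Finset.ne_of_mem_erase hp)]
  rw [h1, sg_not_mem hT, sg_mem (Finset.mem_insert_self q T)]
  have h2 := th_zero_pos (two_le_of_mem_PP hq)
  refine mul_le_mul_of_nonneg_right (by linarith) ?_
  exact Finset.prod_nonneg fun p hp => abs_le_fac (abs_th_lt_one (two_le_of_mem_PP (Finset.mem_of_mem_erase hp)) 0).le (abs_sg T p)

lemma dd_insert_of_not {j q : ℕ} {T : Finset ℕ} (hq : q ∉ PP (Y j)) :
    dd (PP (Y j)) (insert q T) 0 = dd (PP (Y j)) T 0 := by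
  unfold dd
  refine Finset.prod_congr rfl fun p hp => ?_
  rw [sg_insert_of_ne (by rintro rfl; exact hq hp)]

end Pool.Agent.Helper66.AG
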