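import Pool.Agent.Helper66.AG.BJ1
import Pool.Agent.Helper96.AG.E4

/-!
# The ballot estimate from level `j` on
-/

set_option autoImplicit false

namespace Pool.Agent.Helper66.AG

open Finset Pool.Agent.Helper5.RM Pool.Agent.Helper96.AF Pool.Agent.Helper96.AG Pool.Agent.Helper66.AF

/-- the event `BJ` and the walk stays below `A` from level `j` on -/
def SJ (K : ℕ) (η : ℝ) (j : ℕ) (t A : ℝ) (l : ℕ) (T : Finset ℕ) : Prop :=
  BJ K η j T ∧ ∀ i ∈ Finset.Icc (max 1 j) l, ZZ t i T ≤ A

lemma BJ_insert {K : ℕ} {η : ℝ} {j q : ℕ} (T : Finset ℕ) (hq : q ∉ PP (Y j)) : BJ K η j (insert q T) ↔ BJ K η j T := by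
  unfold BJ
  rw [dd_insert_of_not hq]

lemma SJ_insert {K : ℕ} {η : ℝ} {j l q : ℕ} {t A : ℝ} (hjl : j ≤ l) (T : Finset ℕ) (hq : q ∉ PP (Y l)) :
    SJ K η j t A l (insert q T) ↔ SJ K η j t A l T := by
  unfold SJ
  refine and_congr (BJ_insert T fun h => hq (PP_Y_mono hjl h)) ?_
  refine forall₂_congr fun i hi => ?_
  rw [ZZ_insert fun h => hq (PP_Y_mono (Finset.mem_Icc.1 hi).2 h)]

open Classical in
/-- one step of the walk -/
lemma step {K l j : ℕ} {η : ℝ} (hjl : j ≤ l) (hl : l < K) {t A b : ℝ} (hA : 4 ≤ A) :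
    aw (PP (Y K)) (fun p => th p t) (fun T => if SJ K η j t A (l + 1) T then A + b - ZZ t (l + 1) T else 0) ≤
      aw (PP (Y K)) (fun p => th p t) (fun T => if SJ K η j t A l T then A + b - ZZ t l T else 0) +
        Real.exp (-b) * aw (PP (Y K)) (fun p => th p t) (fun T => if BJ K η j T then Real.exp (XX t l T) else 0) := by
  have hpt : ∀ T ⊆ PP (Y K), (if SJ K η j t A (l + 1) T then A + b - ZZ t (l + 1) T else 0) ≤
      ((if SJ K η j t A l T then A + b - ZZ t l T else 0) + (-1) * ((if SJ K η j t A l T then 1 else 0) * XX t l T)) +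
        Real.exp (-b) * (if BJ K η j T then Real.exp (XX t l T) else 0) := by
    intro T _
    by_cases h1 : SJ K η j t A l T
    · have hB : BJ K η j T := h1.1
      rw [if_pos h1, if_pos h1, if_pos hB, ← Real.exp_add]
      have he := Real.add_one_le_exp (-b + XX t l T)
      have he0 := Real.exp_pos (-b + XX t l T)
      have hZ : ZZ t l T ≤ A := by
        rcases Nat.eq_zero_or_pos l with rfl | h0
        · exact (ZZ_zero_le t T).trans hA
        · exact h1.2 l (Finset.mem_Icc.2 ⟨max_le h0 hjl, le_rfl⟩)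
      by_cases h2 : SJ K η j t A (l + 1) T
      · rw [if_pos h2, ZZ_succ]
        linarith
      · rw [if_neg h2]
        linarith
    · have h2 : ¬ SJ K η j t A (l + 1) T := fun h => h1 ⟨h.1, fun i hi => h.2 i (Finset.Icc_subset_Icc le_rfl (Nat.le_succ l) hi)⟩
      rw [if_neg h1, if_neg h1, if_neg h2]
      have : 0 ≤ Real.exp (-b) * (if BJ K η j T then Real.exp (XX t l T) else 0) := by
        split_ifs <;> positivity
      linarith
  refine (aw_mono (hth t) hpt).trans ?_
  rw [aw_add, aw_add, aw_mul_left, aw_mul_left]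
  have e1 : aw (PP (Y K)) (fun p => th p t) (fun T => (if SJ K η j t A l T then 1 else 0) * XX t l T) = 0 := by
    have e2 : ∀ T ⊆ PP (Y K), (if SJ K η j t A l T then 1 else 0) * XX t l T =
        ∑ p ∈ BL l, ((if SJ K η j t A l T then 1 else 0) * th p t) * (sg T p - th p t) := by
      intro T _
      unfold Pool.Agent.Helper66.AF.XX
      rw [Finset.mul_sum]
      exact Finset.sum_congr rfl fun p _ => by ring
    rw [aw_congr e2, aw_sum]
    refine Finset.sum_eq_zero fun p hp => ?_
    refine aw_center (BL_sub hl hp) (fun p => th p t) (fun T => (if SJ K η j t A l T then 1 else 0) * th p t) ?_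
    intro T _
    have hp' : p ∉ PP (Y l) := by
      rw [mem_BL] at hp
      rw [mem_PP]
      omega
    have e3 : SJ K η j t A l (insert p T) ↔ SJ K η j t A l T := SJ_insert hjl T hp'
    simp only [e3]
  rw [e1]
  linarith

open Classical in
/-- optional stopping from level `j` -/
lemma walkJ {K j : ℕ} {η : ℝ} {t A b : ℝ} (hA : 4 ≤ A) (hb : 0 ≤ b) {c0 c1 : ℝ} (hc1 : 0 ≤ c1)
    (h0 : aw (PP (Y K)) (fun p => th p t) (fun T => if BJ K η j T then A + b + |ZZ t j T| else 0) ≤ c0)
    (h1 : ∀ l < K, aw (PP (Y K)) (fun p => th p t) (fun T => if BJ K η j T then Real.exp (XX t l T) else 0) ≤ c1) :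
    ∀ l, j ≤ l → l ≤ K → aw (PP (Y K)) (fun p => th p t) (fun T => if SJ K η j t A l T then A + b - ZZ t l T else 0) ≤
      c0 + l * (Real.exp (-b) * c1) := by
  intro l hjl
  induction l, hjl using Nat.le_induction with
  | base =>
    intro _
    have e1 : ∀ T ⊆ PP (Y K), (if SJ K η j t A j T then A + b - ZZ t j T else 0) ≤
        (if BJ K η j T then A + b + |ZZ t j T| else 0) := by
      intro T _
      by_cases h2 : SJ K η j t A j T
      · rw [if_pos h2, if_pos h2.1]
        linarith [neg_abs_le (ZZ t j T)]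
      · rw [if_neg h2]
        have := abs_nonneg (ZZ t j T)
        split_ifs <;> linarith
    refine (aw_mono (hth t) e1).trans (h0.trans ?_)
    have : 0 ≤ (j : ℝ) * (Real.exp (-b) * c1) := by positivity
    linarith
  | succ l hjl ih =>
    intro hl
    have h2 := ih (by omega)
    have h3 := step (η := η) (t := t) (A := A) (b := b) hjl (show l < K by omega) hA
    have h4 := mul_le_mul_of_nonneg_left (h1 l (by omega)) (Real.exp_pos (-b)).le
    push_cast
    linarith

open Classical in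
/-- correlation -/
lemma stayJ {K j : ℕ} (hK : 1 ≤ K) (hjK : j ≤ K) {η t A b : ℝ} (ht : |t| ≤ 1 / 2 ^ j) (hb : 0 ≤ b) {u : ℝ}
    (hu : aw (PP (Y K)) (fun p => th p t) (fun T => if SJ K η j t A K T then A + b - ZZ t K T else 0) ≤ u)
    (hA : 4 ≤ A) (hs : 0 < ∑ p ∈ PP (Y K), th p t ^ 2) :
    aw (PP (Y K)) (fun p => th p t) (fun T => if SJ K η j t A K T then 1 else 0) *
      (Real.sqrt (∑ p ∈ PP (Y K), th p t ^ 2) / 10000) ≤ u := by
  set F : Finset ℕ → ℝ := fun T => max (A + b - ZZ t K T) 0 with hF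
  set G : Finset ℕ → ℝ := fun T => if SJ K η j t A K T then 1 else 0 with hG
  set σ : ℕ → ℝ := fun q => if 0 ≤ th q t then -1 else 1 with hσ
  have h1 := aw_harris (S := PP (Y K)) (θ := fun p => th p t) (hth t) σ (fun p _ => by rw [hσ]; simp only; split_ifs <;> norm_num) F G
    (by
      intro q _ T _ hqT
      rw [hσ, hF]
      simp only
      split_ifs with h
      · have := ZZ_flip_nonneg (t := t) hqT h K
        have h2 : max (A + b - ZZ t K T) 0 ≤ max (A + b - ZZ t K (insert q T)) 0 := max_le_max (by linarith) le_rfl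
        linarith
      · have := ZZ_flip_nonpos (t := t) hqT (not_le.1 h) K
        have h2 : max (A + b - ZZ t K (insert q T)) 0 ≤ max (A + b - ZZ t K T) 0 := max_le_max (by linarith) le_rfl
        linarith)
    (by
      intro q _ T _ hqT
      have hpos : 0 ≤ th q t → SJ K η j t A K T → SJ K η j t A K (insert q T) := by
        intro h h2
        refine ⟨?_, fun i hi => (ZZ_flip_nonneg (t := t) hqT h i).trans (h2.2 i hi)⟩
        by_cases hq : q ∈ PP (Y j)
        · have h3 := h2.1
          unfold BJ at h3 ⊢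
          exact (dd_zero_insert hqT hq).trans h3
        · rw [BJ_insert T hq]
          exact h2.1
      have hneg : th q t < 0 → SJ K η j t A K (insert q T) → SJ K η j t A K T := by
        intro h h2
        refine ⟨?_, fun i hi => (ZZ_flip_nonpos (t := t) hqT h i).trans (h2.2 i hi)⟩
        have hq : q ∉ PP (Y j) := fun hq => by linarith [th_pos_small hq ht]
        exact (BJ_insert T hq).1 h2.1
      rw [hσ, hG]
      simp only
      by_cases h : 0 ≤ th q t
      · rw [if_pos h]
        by_cases h2 : SJ K η j t A K T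
        · rw [if_pos h2, if_pos (hpos h h2)]
          norm_num
        · rw [if_neg h2]
          split_ifs <;> norm_num
      · rw [if_neg h]
        by_cases h2 : SJ K η j t A K (insert q T)
        · rw [if_pos h2, if_pos (hneg (not_le.1 h) h2)]
          norm_num
        · rw [if_neg h2]
          split_ifs <;> norm_num)
  have h2 : Real.sqrt (∑ p ∈ PP (Y K), th p t ^ 2) / 10000 ≤ aw (PP (Y K)) (fun p => th p t) F := by
    have e1 : aw (PP (Y K)) (fun p => th p t) (fun T => (1 / 2) * (|ZZ t K T| - ZZ t K T)) ≤ aw (PP (Y K)) (fun p => th p t) F := by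
      refine aw_mono (hth t) fun T _ => ?_
      rw [hF]
      simp only
      rcases abs_cases (ZZ t K T) with h | h
      · rw [h.1, sub_self, mul_zero]
        exact le_max_right _ _
      · rw [h.1]
        refine le_trans ?_ (le_max_left _ _)
        linarith
    rw [aw_mul_left, aw_sub] at e1
    have e2 : aw (PP (Y K)) (fun p => th p t) (fun T => ZZ t K T) = 0 := aw_ZZ t K
    have e3 := abs_moment (S := PP (Y K)) (θ := fun p => th p t) (fun p hp => th_sq_le (two_le_of_mem_PP hp) t) hs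
    have e4 : aw (PP (Y K)) (fun p => th p t) (fun T => |ZZ t K T|) =
      aw (PP (Y K)) (fun p => th p t) (fun T => |∑ p ∈ PP (Y K), th p t * (sg T p - th p t)|) := rfl
    rw [e2, e4, sub_zero] at e1
    linarith
  have h4 : aw (PP (Y K)) (fun p => th p t) (fun T => F T * G T) =
      aw (PP (Y K)) (fun p => th p t) (fun T => if SJ K η j t A K T then A + b - ZZ t K T else 0) := by
    refine aw_congr fun T _ => ?_
    rw [hF, hG]
    simp only
    split_ifs with h
    · have := h.2 K (Finset.mem_Icc.2 ⟨max_le hK hjK, le_rfl⟩)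
      rw [mul_one, max_eq_left]
      linarith
    · rw [mul_zero]
  rw [h4] at h1
  have h5 : 0 ≤ aw (PP (Y K)) (fun p => th p t) G := by
    refine aw_nonneg (hth t) fun T _ => ?_
    rw [hG]
    simp only
    split_ifs <;> norm_num
  have h6 := mul_le_mul_of_nonneg_right h2 h5
  calc _ = Real.sqrt (∑ p ∈ PP (Y K), th p t ^ 2) / 10000 * aw (PP (Y K)) (fun p => th p t) G := by ring
    _ ≤ aw (PP (Y K)) (fun p => th p t) F * aw (PP (Y K)) (fun p => th p t) G := h6
    _ ≤ _ := h1.trans hu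

/-- exponential moments of the increments -/
lemma aw_exp_XX {K l : ℕ} (hl : l < K) (t : ℝ) {M : ℝ} (hM : ∑ p ∈ BL l, th p t ^ 2 ≤ M) :
    aw (PP (Y K)) (fun p => th p t) (fun T => Real.exp (XX t l T) ^ 4) ≤ Real.exp (64 * M) := by
  have e5 : ∀ T ⊆ PP (Y K), Real.exp (XX t l T) ^ 4 =
      Real.exp (∑ p ∈ PP (Y K), (if p ∈ BL l then 4 * th p t else 0) * (sg T p - th p t)) := by
    intro T _
    rw [← sum_extend (BL_sub hl) (fun p => 4 * th p t) T (fun p => th p t), ← Real.exp_nat_mul]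
    congr 1
    unfold Pool.Agent.Helper66.AF.XX
    rw [Finset.mul_sum]
    exact Finset.sum_congr rfl fun p _ => by push_cast; ring
  rw [aw_congr e5]
  refine (aw_exp_le (hth t) _).trans (Real.exp_le_exp.2 ?_)
  rw [sum_sq_extend (BL_sub hl) (fun p => 4 * th p t)]
  have e6 : ∑ p ∈ BL l, (4 * th p t) ^ 2 = 16 * ∑ p ∈ BL l, th p t ^ 2 := by
    rw [Finset.mul_sum]
    exact Finset.sum_congr rfl fun p _ => by ring
  rw [e6]
  linarith

/-- exponential moments of the errors -/
lemma aw_exp_DD4 {C4 : ℝ} (hC : 0 ≤ C4) (h4 : ∀ y : ℕ, 1 ≤ y → ∑ p ∈ PP y, Real.log p / p ≤ C4 * (1 + Real.log y))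
    {l K : ℕ} (hl : l ≤ K) (t : ℝ) :
    aw (PP (Y K)) (fun p => th p t) (fun T => Real.exp (-(DD t l T)) ^ 4) ≤ Real.exp (512 * C4) := by
  have e5 : ∀ T ⊆ PP (Y K), Real.exp (-(DD t l T)) ^ 4 =
      Real.exp (∑ p ∈ PP (Y K), (if p ∈ PP (Y l) then -(4 * cc t l p) else 0) * (sg T p - th p t)) := by
    intro T _
    rw [← sum_extend (PP_Y_mono hl) (fun p => -(4 * cc t l p)) T (fun p => th p t), ← Real.exp_nat_mul]
    congr 1
    unfold Pool.Agent.Helper66.AF.DD
    rw [← Finset.sum_neg_distrib, Finset.mul_sum]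
    exact Finset.sum_congr rfl fun p _ => by push_cast; ring
  rw [aw_congr e5]
  refine (aw_exp_le (hth t) _).trans (Real.exp_le_exp.2 ?_)
  rw [sum_sq_extend (PP_Y_mono hl) (fun p => -(4 * cc t l p))]
  have e6 : ∑ p ∈ PP (Y l), (-(4 * cc t l p)) ^ 2 = 16 * ∑ p ∈ PP (Y l), cc t l p ^ 2 := by
    rw [Finset.mul_sum]
    exact Finset.sum_congr rfl fun p _ => by ring
  rw [e6]
  have e7 : ∑ p ∈ PP (Y l), cc t l p ^ 2 ≤ 8 * C4 := by
    have e8 : ∀ p ∈ PP (Y l), cc t l p ^ 2 ≤ 4 * (1 / 2 ^ l) ^ 2 * (2 ^ l * Real.log 2) * (Real.log p / p) := by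
      intro p hp
      have hp2 := two_le_of_mem_PP hp
      have hp0 : (2 : ℝ) ≤ p := by exact_mod_cast hp2
      have hlp : 0 ≤ Real.log p := Real.log_nonneg (by linarith)
      refine (cc_sq_le hp2 t l).trans ?_
      rw [mul_assoc (4 * (1 / 2 ^ l) ^ 2)]
      refine mul_le_mul_of_nonneg_left ?_ (by positivity)
      refine mul_le_mul_of_nonneg_right ?_ (by positivity)
      rw [← log_Y]
      refine Real.log_le_log (by linarith) ?_
      exact_mod_cast (mem_PP.1 hp).2
    refine (Finset.sum_le_sum e8).trans ?_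
    rw [← Finset.mul_sum]
    have h8 := h4 (Y l) (Y_pos l)
    rw [log_Y] at h8
    have h2 : 0 ≤ Real.log 2 := Real.log_nonneg (by norm_num)
    have h9 : 4 * (1 / 2 ^ l) ^ 2 * (2 ^ l * Real.log 2) * ∑ p ∈ PP (Y l), Real.log p / p ≤
        4 * (1 / 2 ^ l) ^ 2 * (2 ^ l * Real.log 2) * (C4 * (1 + 2 ^ l * Real.log 2)) :=
      mul_le_mul_of_nonneg_left h8 (by positivity)
    refine h9.trans ?_
    have h10 : 4 * (1 / 2 ^ l) ^ 2 * (2 ^ l * Real.log 2) * (C4 * (1 + 2 ^ l * Real.log 2)) =
        4 * C4 * (Real.log 2 * (1 / 2 ^ l + Real.log 2)) := by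
      field_simp
    rw [h10]
    have h11 : (1 : ℝ) / 2 ^ l ≤ 1 := by
      rw [div_le_one (by positivity)]
      exact one_le_pow₀ (by norm_num)
    have h12 := Real.log_two_lt_d9
    have h13 : Real.log 2 * (1 / 2 ^ l + Real.log 2) ≤ 1 * 2 :=
      mul_le_mul (by linarith) (by linarith) (by positivity) (by norm_num)
    calc 4 * C4 * (Real.log 2 * (1 / 2 ^ l + Real.log 2)) ≤ 4 * C4 * (1 * 2) := mul_le_mul_of_nonneg_left h13 (by positivity)
      _ = _ := by ring
  linarith

/-- the variance of the walk at level `j` -/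
lemma var_upper {C3 : ℝ} (h3 : ∀ r : ℕ, ∑ p ∈ BL r, (1 : ℝ) / p ≤ C3) (hC3 : 0 ≤ C3) (t : ℝ) (j : ℕ) :
    ∑ p ∈ PP (Y j), th p t ^ 2 ≤ (4 * C3 + 2) * (j + 1) := by
  induction j with
  | zero =>
    have h1 : ∀ p ∈ PP (Y 0), th p t ^ 2 ≤ 1 := by
      intro p hp
      have := th_sq_le (two_le_of_mem_PP hp) t
      linarith
    refine (Finset.sum_le_sum h1).trans ?_
    rw [Finset.sum_const, nsmul_eq_mul]
    have h2 : (PP (Y 0)).card ≤ 2 := by
      have : (PP (Y 0)).card ≤ (Finset.Icc 1 (Y 0)).card := Finset.card_filter_le _ _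
      rw [Nat.card_Icc] at this
      have h3 : Y 0 = 2 := by unfold Y; norm_num
      rw [h3] at this ⊢
      omega
    have h3 : (((PP (Y 0)).card : ℕ) : ℝ) ≤ 2 := by exact_mod_cast h2
    push_cast
    linarith
  | succ j ih =>
    rw [PP_Y_succ, Finset.sum_union (BL_disj j)]
    have e1 : ∀ p ∈ BL j, th p t ^ 2 ≤ 4 * ((1 : ℝ) / p) := by
      intro p hp
      rw [mul_one_div]
      exact th_sq_le' (mem_BL.1 hp).1.one_lt.le t
    have e2 := Finset.sum_le_sum e1
    rw [← Finset.mul_sum] at e2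
    have := h3 j
    push_cast
    linarith

end Pool.Agent.Helper66.AG
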