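import Pool.Agent.Helper66.AG.BJ2

/-!
# The ballot estimate from level `j` on: result
-/

set_option autoImplicit false

namespace Pool.Agent.Helper66.AG

open Finset Pool.Agent.Helper5.RM Pool.Agent.Helper96.AF Pool.Agent.Helper96.AG Pool.Agent.Helper66.AF

lemma xj_pos {K : ℕ} (hK : 1 ≤ K) (η : ℝ) (j : ℕ) : 0 < xj K η j := by
  have : (0 : ℝ) < K := by exact_mod_cast hK
  have h := Real.rpow_pos_of_pos this η
  unfold xj
  positivity

lemma four_sum (x y : ℝ) : (x + y) ^ 4 ≤ 8 * x ^ 4 + 8 * y ^ 4 := by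
  have h1 : (x + y) ^ 2 ≤ 2 * (x ^ 2 + y ^ 2) := by nlinarith [sq_nonneg (x - y)]
  have h2 : (x + y) ^ 4 ≤ (2 * (x ^ 2 + y ^ 2)) ^ 2 := by
    have h3 : (x + y) ^ 4 = ((x + y) ^ 2) ^ 2 := by ring
    rw [h3]
    exact pow_le_pow_left₀ (by positivity) h1 2
  nlinarith [sq_nonneg (x ^ 2 - y ^ 2)]

lemma sqrt_le_self' {x : ℝ} (hx : 1 ≤ x) : Real.sqrt x ≤ x := by
  rw [Real.sqrt_le_left (by linarith)]
  nlinarith

open Classical in
lemma startJ {K j : ℕ} (hj : j ≤ K) {η t B D X C1 C3 : ℝ} (hX : 0 < X) (hD0 : 0 < D)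
    (hBJ : aw (PP (Y K)) (fun p => th p t) (fun T => if BJ K η j T then 1 else 0) ≤ C1 * X)
    (h3 : ∀ r : ℕ, ∑ p ∈ BL r, (1 : ℝ) / p ≤ C3) (hC3 : 0 ≤ C3) (hB : 0 ≤ B) (hBD : B ≤ D) (hDj : (j : ℝ) + 1 ≤ D) :
    aw (PP (Y K)) (fun p => th p t) (fun T => if BJ K η j T then B + |ZZ t j T| else 0) ≤
      ((8 + 8 * 2640 * (4 * C3 + 2) ^ 2) / 4 + 3 / 4 * C1) * D * X ^ (3 / 4 : ℝ) := by
  have hj0 : (0 : ℝ) ≤ j := by positivity
  refine aw_holder (G := fun T => B + |ZZ t j T|) (hth t) hX hD0 hBJ ?_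
  have hpt : ∀ T ⊆ PP (Y K), (B + |ZZ t j T|) ^ 4 ≤ 8 * B ^ 4 + 8 * (∑ p ∈ PP (Y K), (if p ∈ PP (Y j) then th p t else 0) * (sg T p - th p t)) ^ 4 := by
    intro T _
    have e1 := four_sum B |ZZ t j T|
    have e2 : |ZZ t j T| ^ 4 = (∑ p ∈ PP (Y K), (if p ∈ PP (Y j) then th p t else 0) * (sg T p - th p t)) ^ 4 := by
      rw [← sum_extend (PP_Y_mono hj) (fun p => th p t) T (fun p => th p t)]
      rw [show (4 : ℕ) = 2 * 2 by norm_num, pow_mul, sq_abs, pow_mul]
      rfl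
    rw [e2] at e1
    exact e1
  refine (aw_mono (hth t) hpt).trans ?_
  rw [aw_add, aw_const, aw_mul_left]
  obtain ⟨v, hv⟩ : ∃ v : ℝ, v = 4 * C3 + 2 := ⟨_, rfl⟩
  have hv0 : 0 < v := by rw [hv]; positivity
  obtain ⟨s, hs⟩ : ∃ s : ℝ, s = Real.sqrt (v * (j + 1)) := ⟨_, rfl⟩
  have hs0 : 0 < s := by rw [hs]; exact Real.sqrt_pos.2 (by positivity)
  have hs2 : s ^ 2 = v * (j + 1) := by rw [hs]; exact Real.sq_sqrt (by positivity)
  have e3 := aw_four (S := PP (Y K)) (θ := fun p => th p t) (hth t) (fun p => if p ∈ PP (Y j) then th p t else 0) hs0 (by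
    rw [sum_sq_extend (PP_Y_mono hj) (fun p => th p t), hs2, hv]
    exact var_upper h3 hC3 t j)
  have e4 : s ^ 4 = v ^ 2 * (j + 1) ^ 2 := by
    rw [show (4 : ℕ) = 2 * 2 by norm_num, pow_mul, hs2]
    ring
  rw [e4] at e3
  have e5 : ((j : ℝ) + 1) ^ 2 ≤ D ^ 4 := by
    have e6 : 1 ≤ D := by linarith
    calc ((j : ℝ) + 1) ^ 2 ≤ D ^ 2 := pow_le_pow_left₀ (by positivity) hDj 2
      _ ≤ D ^ 4 := pow_le_pow_right₀ e6 (by norm_num)
  have e7 : B ^ 4 ≤ D ^ 4 := pow_le_pow_left₀ hB hBD 4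
  have e8 : 2640 * (v ^ 2 * ((j : ℝ) + 1) ^ 2) ≤ 2640 * (v ^ 2 * D ^ 4) := by gcongr
  have e9 : (8 + 8 * 2640 * (4 * C3 + 2) ^ 2) * D ^ 4 = 8 * D ^ 4 + 8 * (2640 * (v ^ 2 * D ^ 4)) := by rw [hv]; ring
  rw [e9]
  linarith

open Classical in
theorem ballotJ : ∃ C : ℝ, 0 < C ∧ ∀ K : ℕ, 2 ≤ K → ∀ j ≤ K, ∀ t : ℝ, |t| ≤ 1 / 2 ^ j → ∀ a η : ℝ, 0 ≤ a →
    aw (PP (Y K)) (fun p => th p t) (fun T => if AA a K T t ∧ BJ K η j T then 1 else 0) ≤
      C * (xj K η j) ^ (3 / 4 : ℝ) * (a + Real.log K + j) / Real.sqrt K := by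
  obtain ⟨C1, hC1, h1⟩ := BJ_aw
  obtain ⟨C3, hC3, h3⟩ := block_sum
  obtain ⟨C4, hC4, h4⟩ := logp_sum
  obtain ⟨K0, hK0⟩ := var_lower
  have hl2 : 0 < Real.log 2 := Real.log_pos (by norm_num)
  -- the constants
  set v : ℝ := 4 * C3 + 2 with hv
  set m0 : ℝ := 8 + 8 * 2640 * v ^ 2 with hm0
  set c0 : ℝ := m0 / 4 + 3 / 4 * C1 with hc0
  set c1 : ℝ := Real.exp (256 * C3) / 4 + 3 / 4 * C1 with hc1
  set c2 : ℝ := Real.exp (512 * C4) / 4 + 3 / 4 * C1 with hc2
  set c3 : ℝ := 10000 * (c0 + c1) * (24 * C4 + 6) + c2 with hc3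
  have hv0 : 0 < v := by positivity
  have hm00 : 0 < m0 := by positivity
  have hc00 : 0 < c0 := by positivity
  have hc10 : 0 < c1 := by positivity
  have hc20 : 0 < c2 := by positivity
  have hc30 : 0 < c3 := by positivity
  set CC : ℝ := c3 / Real.log 2 + 30000 * (c0 + c1) + (C1 ^ (3 / 4 : ℝ) + 1) * Real.sqrt K0 / Real.log 2 with hCC
  have hC1p : 0 < C1 ^ (3 / 4 : ℝ) := Real.rpow_pos_of_pos hC1 _
  refine ⟨CC, by positivity, fun K hK j hj t ht a η ha => ?_⟩
  have hK' : (2 : ℝ) ≤ K := by exact_mod_cast hK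
  have hsK : 0 < Real.sqrt K := Real.sqrt_pos.2 (by linarith)
  have hlK : Real.log 2 ≤ Real.log K := Real.log_le_log (by norm_num) hK'
  have hlK0 : 0 < Real.log K := by linarith
  have hj0 : (0 : ℝ) ≤ j := by positivity
  have hX : 0 < xj K η j := xj_pos (by omega) η j
  set X := xj K η j with hXdef
  have hX34 : 0 < X ^ (3 / 4 : ℝ) := Real.rpow_pos_of_pos hX _
  set u : ℝ := a + Real.log K + j with hu
  have hu0 : Real.log 2 ≤ u := by rw [hu]; linarith
  have hBJ := h1 K j K η t ht hj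
  rw [← hXdef] at hBJ
  set x := aw (PP (Y K)) (fun p => th p t) (fun T => if BJ K η j T then 1 else 0) with hx
  have hx1 : x ≤ 1 := by
    refine (aw_mono (hth t) (G := fun _ => (1 : ℝ)) fun T _ => ?_).trans (aw_const _ _ _).le
    split_ifs <;> norm_num
  have hx0 : 0 ≤ x := by
    refine aw_nonneg (hth t) fun T _ => ?_
    split_ifs <;> norm_num
  have htriv : aw (PP (Y K)) (fun p => th p t) (fun T => if AA a K T t ∧ BJ K η j T then 1 else 0) ≤ x := by
    refine aw_mono (hth t) fun T _ => ?_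
    by_cases hB : BJ K η j T
    · rw [if_pos hB]
      split_ifs <;> norm_num
    · rw [if_neg hB, if_neg fun h => hB h.2]
  rcases lt_or_ge K K0 with hsm | hbig
  · refine htriv.trans ?_
    rw [le_div_iff₀ hsK]
    have e0 : x ≤ C1 ^ (3 / 4 : ℝ) * X ^ (3 / 4 : ℝ) := by
      rw [← Real.mul_rpow hC1.le hX.le]
      rcases hx0.eq_or_lt with h0 | h0
      · rw [← h0]
        positivity
      · calc x = x ^ (1 : ℝ) := (Real.rpow_one x).symm
          _ ≤ x ^ (3 / 4 : ℝ) := Real.rpow_le_rpow_of_exponent_ge h0 hx1 (by norm_num)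
          _ ≤ _ := Real.rpow_le_rpow hx0 hBJ (by norm_num)
    have e1 : Real.sqrt K ≤ Real.sqrt K0 := Real.sqrt_le_sqrt (by exact_mod_cast hsm.le)
    have e2 : Real.sqrt K0 ≤ Real.sqrt K0 / Real.log 2 * u := by
      rw [div_mul_eq_mul_div, le_div_iff₀ hl2]
      exact mul_le_mul_of_nonneg_left hu0 (Real.sqrt_nonneg _)
    have e3 : x * Real.sqrt K ≤ (C1 ^ (3 / 4 : ℝ) * X ^ (3 / 4 : ℝ)) * (Real.sqrt K0 / Real.log 2 * u) :=
      mul_le_mul e0 (e1.trans e2) hsK.le (by positivity)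
    refine e3.trans ?_
    have e4 : (C1 ^ (3 / 4 : ℝ) * X ^ (3 / 4 : ℝ)) * (Real.sqrt K0 / Real.log 2 * u) =
      (C1 ^ (3 / 4 : ℝ) * Real.sqrt K0 / Real.log 2) * (X ^ (3 / 4 : ℝ) * u) := by ring
    rw [e4, mul_assoc]
    refine mul_le_mul_of_nonneg_right ?_ (mul_nonneg hX34.le (hl2.le.trans hu0))
    have e5 : C1 ^ (3 / 4 : ℝ) * Real.sqrt K0 / Real.log 2 ≤ (C1 ^ (3 / 4 : ℝ) + 1) * Real.sqrt K0 / Real.log 2 := by
      gcongr
      linarith
    have e6 : 0 ≤ c3 / Real.log 2 + 30000 * (c0 + c1) := by positivity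
    rw [hCC]
    linarith
  · -- the main case
    set lam : ℝ := 2 * Real.log K with hlam
    set A : ℝ := a + 24 * C4 + lam + 4 with hA
    set b : ℝ := Real.log K with hb
    have hA4 : 4 ≤ A := by
      have q1 : 0 ≤ 24 * C4 := by linarith
      have q2 : 0 ≤ lam := by linarith
      linarith
    have hb0 : 0 ≤ b := hlK0.le
    have htK : |t| ≤ K := by
      have : (1 : ℝ) / 2 ^ j ≤ 1 := by
        rw [div_le_one (by positivity)]
        exact one_le_pow₀ (by norm_num)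
      linarith
    have hvar := hK0 K hbig t htK
    set D : ℝ := A + b + 1 + j with hD
    have hD0 : 0 < D := by rw [hD]; linarith
    have hDj : (j : ℝ) + 1 ≤ D := by rw [hD]; linarith
    -- the start of the walk
    have hstart : aw (PP (Y K)) (fun p => th p t) (fun T => if BJ K η j T then A + b + |ZZ t j T| else 0) ≤
        c0 * D * X ^ (3 / 4 : ℝ) := startJ hj hX hD0 hBJ h3 hC3 (by linarith) (by rw [hD]; linarith) hDj
    -- the increments
    have hincr : ∀ l < K, aw (PP (Y K)) (fun p => th p t) (fun T => if BJ K η j T then Real.exp (XX t l T) else 0) ≤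
        c1 * X ^ (3 / 4 : ℝ) := by
      intro l hl
      have e1 : ∑ p ∈ BL l, th p t ^ 2 ≤ 4 * C3 := by
        have e1 : ∀ p ∈ BL l, th p t ^ 2 ≤ 4 * ((1 : ℝ) / p) := by
          intro p hp
          rw [mul_one_div]
          exact th_sq_le' (mem_BL.1 hp).1.one_lt.le t
        refine (Finset.sum_le_sum e1).trans ?_
        rw [← Finset.mul_sum]
        have := h3 l
        linarith
      have e2 := aw_exp_XX hl t e1
      have e3 := aw_holder (G := fun T => Real.exp (Pool.Agent.Helper66.AF.XX t l T)) (D := 1) (m := Real.exp (256 * C3)) (hth t) hX one_pos hBJ (by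
        rw [one_pow, mul_one]
        refine e2.trans (le_of_eq ?_)
        congr 1
        ring)
      rw [mul_one] at e3
      exact e3
    have hwalk := walkJ (K := K) (j := j) (η := η) (t := t) (A := A) (b := b) hA4 hb0 (by positivity : 0 ≤ c1 * X ^ (3 / 4 : ℝ))
      hstart hincr K hj le_rfl
    have hKe : (K : ℝ) * (Real.exp (-b) * (c1 * X ^ (3 / 4 : ℝ))) = c1 * X ^ (3 / 4 : ℝ) := by
      rw [hb, Real.exp_neg, Real.exp_log (by linarith)]
      field_simp
    rw [hKe] at hwalk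
    have hwalk2 : aw (PP (Y K)) (fun p => th p t) (fun T => if SJ K η j t A K T then A + b - ZZ t K T else 0) ≤
        (c0 + c1) * D * X ^ (3 / 4 : ℝ) := by
      refine hwalk.trans ?_
      have e1 : 1 ≤ D := by linarith
      have e2 : c1 * X ^ (3 / 4 : ℝ) ≤ c1 * X ^ (3 / 4 : ℝ) * D := le_mul_of_one_le_right (by positivity) e1
      linarith [show (c0 + c1) * D * X ^ (3 / 4 : ℝ) = c0 * D * X ^ (3 / 4 : ℝ) + c1 * X ^ (3 / 4 : ℝ) * D by ring]
    have hst := stayJ (K := K) (by omega) hj ht hb0 hwalk2 hA4 (lt_of_lt_of_le (by linarith) hvar)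
    set P := aw (PP (Y K)) (fun p => th p t) (fun T => if SJ K η j t A K T then 1 else 0) with hP
    have hP0 : 0 ≤ P := by
      refine aw_nonneg (hth t) fun T _ => ?_
      split_ifs <;> norm_num
    have hsq : Real.sqrt K ≤ Real.sqrt (∑ p ∈ PP (Y K), th p t ^ 2) := Real.sqrt_le_sqrt hvar
    have hP1 : P * Real.sqrt K ≤ 10000 * ((c0 + c1) * D * X ^ (3 / 4 : ℝ)) := by
      have : P * (Real.sqrt K / 10000) ≤ (c0 + c1) * D * X ^ (3 / 4 : ℝ) :=
        le_trans (mul_le_mul_of_nonneg_left (by linarith) hP0) hst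
      linarith
    -- reduction to the walk
    have hred : aw (PP (Y K)) (fun p => th p t) (fun T => if AA a K T t ∧ BJ K η j T then 1 else 0) ≤
        P + K * (Real.exp (-lam) * (c2 * X ^ (3 / 4 : ℝ))) := by
      have hpt : ∀ T ⊆ PP (Y K), (if AA a K T t ∧ BJ K η j T then (1 : ℝ) else 0) ≤
          (if SJ K η j t A K T then 1 else 0) + ∑ l ∈ Finset.Icc 1 K, Real.exp (-lam) * (if BJ K η j T then Real.exp (-(DD t l T)) else 0) := by
        intro T _
        have hnn : ∀ l ∈ Finset.Icc 1 K, 0 ≤ Real.exp (-lam) * (if BJ K η j T then Real.exp (-(DD t l T)) else 0) := by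
          intro l _
          split_ifs <;> positivity
        have hnn' := Finset.sum_nonneg hnn
        by_cases h5 : AA a K T t ∧ BJ K η j T
        · rw [if_pos h5]
          by_cases h6 : SJ K η j t A K T
          · rw [if_pos h6]
            linarith
          · rw [if_neg h6, zero_add]
            unfold SJ at h6
            push Not at h6
            obtain ⟨l, hl, h7⟩ := h6 h5.2
            have hl' : l ∈ Finset.Icc 1 K := Finset.mem_Icc.2 ⟨(le_max_left _ _).trans (Finset.mem_Icc.1 hl).1, (Finset.mem_Icc.1 hl).2⟩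
            have h8 := AA_walk hC4 h4 h5.1 l hl'
            have h9 : 1 ≤ Real.exp (-lam) * (if BJ K η j T then Real.exp (-(DD t l T)) else 0) := by
              rw [if_pos h5.2, ← Real.exp_add]
              apply Real.one_le_exp
              rw [hA] at h7
              linarith
            exact h9.trans (Finset.single_le_sum hnn hl')
        · rw [if_neg h5]
          have : (0 : ℝ) ≤ if SJ K η j t A K T then 1 else 0 := by split_ifs <;> norm_num
          linarith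
      refine (aw_mono (hth t) hpt).trans ?_
      rw [aw_add, aw_sum]
      have h8 : ∑ l ∈ Finset.Icc 1 K, aw (PP (Y K)) (fun p => th p t) (fun T => Real.exp (-lam) * (if BJ K η j T then Real.exp (-(DD t l T)) else 0)) ≤
          ∑ l ∈ Finset.Icc 1 K, Real.exp (-lam) * (c2 * X ^ (3 / 4 : ℝ)) := by
        refine Finset.sum_le_sum fun l hl => ?_
        rw [aw_mul_left]
        refine mul_le_mul_of_nonneg_left ?_ (Real.exp_pos _).le
        have e3 := aw_holder (G := fun T => Real.exp (-(Pool.Agent.Helper66.AF.DD t l T))) (D := 1) (m := Real.exp (512 * C4)) (hth t) hX one_pos hBJ (by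
          rw [one_pow, mul_one]
          exact aw_exp_DD4 hC4 h4 (Finset.mem_Icc.1 hl).2 t)
        rw [mul_one] at e3
        exact e3
      rw [Finset.sum_const, Nat.card_Icc, Nat.add_sub_cancel, nsmul_eq_mul] at h8
      linarith
    have hKl : (K : ℝ) * (Real.exp (-lam) * (c2 * X ^ (3 / 4 : ℝ))) = c2 * X ^ (3 / 4 : ℝ) / K := by
      rw [hlam, show -(2 * Real.log K) = -Real.log K + -Real.log K by ring, Real.exp_add, Real.exp_neg, Real.exp_log (by linarith)]
      field_simp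
    rw [hKl] at hred
    have hfin : c2 * X ^ (3 / 4 : ℝ) / K * Real.sqrt K ≤ c2 * X ^ (3 / 4 : ℝ) := by
      have e1 : Real.sqrt K ≤ K := sqrt_le_self' (by linarith)
      rw [div_mul_eq_mul_div, div_le_iff₀ (by linarith)]
      exact mul_le_mul_of_nonneg_left e1 (mul_nonneg hc20.le hX34.le)
    rw [le_div_iff₀ hsK]
    have e1 : aw (PP (Y K)) (fun p => th p t) (fun T => if AA a K T t ∧ BJ K η j T then 1 else 0) * Real.sqrt K ≤
        10000 * ((c0 + c1) * D * X ^ (3 / 4 : ℝ)) + c2 * X ^ (3 / 4 : ℝ) := by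
      have := mul_le_mul_of_nonneg_right hred hsK.le
      rw [add_mul] at this
      linarith
    refine e1.trans ?_
    have e2 : D ≤ 3 * u + (24 * C4 + 6) := by
      rw [hD, hA, hb, hlam, hu]
      linarith
    have e3 : 10000 * ((c0 + c1) * D * X ^ (3 / 4 : ℝ)) + c2 * X ^ (3 / 4 : ℝ) ≤ (c3 + 30000 * (c0 + c1) * u) * X ^ (3 / 4 : ℝ) := by
      have e4 : 10000 * (c0 + c1) * D ≤ 10000 * (c0 + c1) * (3 * u + (24 * C4 + 6)) := mul_le_mul_of_nonneg_left e2 (by positivity)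
      have e5 : 10000 * ((c0 + c1) * D * X ^ (3 / 4 : ℝ)) + c2 * X ^ (3 / 4 : ℝ) = (10000 * (c0 + c1) * D + c2) * X ^ (3 / 4 : ℝ) := by ring
      rw [e5]
      refine mul_le_mul_of_nonneg_right ?_ hX34.le
      rw [hc3]
      linarith
    refine e3.trans ?_
    have e4 : c3 ≤ c3 / Real.log 2 * u := by
      rw [div_mul_eq_mul_div, le_div_iff₀ hl2]
      exact mul_le_mul_of_nonneg_left hu0 hc30.le
    have e5 : c3 + 30000 * (c0 + c1) * u ≤ CC * u := by
      have e6 : 0 ≤ (C1 ^ (3 / 4 : ℝ) + 1) * Real.sqrt K0 / Real.log 2 * u := by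
        have : 0 ≤ u := hl2.le.trans hu0
        positivity
      rw [hCC]
      linarith
    calc (c3 + 30000 * (c0 + c1) * u) * X ^ (3 / 4 : ℝ) ≤ (CC * u) * X ^ (3 / 4 : ℝ) := mul_le_mul_of_nonneg_right e5 hX34.le
      _ = _ := by ring

end Pool.Agent.Helper66.AG
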